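import Pool.Agent.Q30.FJ.GPf

/-!
# Kernels which are free products of graph products and free groups: a local form

The theorem `Q30.FJ.gfree_main` with the hypothesis that the conjugations by the elements of `G` which
normalize a vertex group are realized in groups in `C`.
-/

set_option autoImplicit false

namespace Pool.Agent.L7h79.FJ

open Q30.FJ

variable {C : ∀ (G : Type) [Group G], Prop}
variable {G : Type} [Group G] {V J : Type} {Λ : SimpleGraph V} {A : V → Subgroup G}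
  {x : J → G} {N : Subgroup G} [N.Normal]

theorem gfree_cr (hF : ClosedF C) (h : GFree Λ A x N) (hQ : C (G ⧸ N)) (hne : ∀ v, A v ≠ ⊥)
    (hperm : ∀ (g : G) (v : V), ∃ w, Mv N g (A v) (A w))
    (hst : ∀ (g : G) (v : V), ∃ k : ℕ, 0 < k ∧ ∀ (m : ℤ) (w : V),
      Mv N (g ^ ((k : ℤ) * m)) (A v) (A w) → ¬ Λ.Adj v w)
    (hcr : ∀ (v : V) (g : G), Maps g (A v) (A v) → CR C g (A v)) : C G := by
  have hrel := h.rel
  have hKn : (nc N A).Normal := nc_normal hperm
  have hKN : nc N A ≤ N := nc_le h.le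
  have hnor : (N.map (QuotientGroup.mk' (nc N A))).Normal :=
    Subgroup.Normal.map inferInstance _ (QuotientGroup.mk'_surjective _)
  have hGK : C (G ⧸ nc N A) := by
    refine hF.free _ (N.map (QuotientGroup.mk' (nc N A))) (h.free _ rfl) ?_
    exact hF.base.base.of_injective _ (G ⧸ N)
      (QuotientGroup.quotientQuotientEquivQuotient (nc N A) N hKN).toMonoidHom
      (QuotientGroup.quotientQuotientEquivQuotient (nc N A) N hKN).injective hQ
  have hyp : Hyp C (relG Λ (Subgroup.closure (Set.range x)) (fun _ => ⊥))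
      (relA A (Subgroup.closure (Set.range x)) (fun _ => ⊥)) (nc N A) :=
    ⟨hrel.kernel, relA_ne hne, hrel.perm hperm, relA_cr hcr⟩
  refine gpk_main hF hyp hGK ?_
  intro g i
  obtain ⟨k, hk0, hk⟩ := hst g i.1
  refine ⟨k, hk0, ?_⟩
  rintro m j ⟨n, hn, hm⟩ hij
  refine hk m j.1 ?_ hij.1
  have hQN : Subgroup.closure (Set.range x) ≤ N := hrel.leQ
  obtain ⟨q, hq⟩ : ∃ q : G, q = (i.2.out : G) := ⟨_, rfl⟩
  obtain ⟨r, hr⟩ : ∃ r : G, r = (j.2.out : G) := ⟨_, rfl⟩
  have hqN : q ∈ N := by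
    rw [hq]
    exact hQN i.2.out.2
  have hrN : r ∈ N := by
    rw [hr]
    exact hQN j.2.out.2
  refine ⟨r⁻¹ * n * (g ^ ((k : ℤ) * m) * q * (g ^ ((k : ℤ) * m))⁻¹),
    N.mul_mem (N.mul_mem (N.inv_mem hrN) (hKN hn))
      (Subgroup.Normal.conj_mem inferInstance q hqN _), ?_⟩
  intro a
  have h1 := hm (q * a * q⁻¹)
  rw [mem_relA, mem_relA, ← hq, ← hr] at h1
  have h2 : q⁻¹ * (q * a * q⁻¹) * q = a := by group
  rw [h2] at h1
  rw [h1]
  have h3 : ∀ z : G, r⁻¹ * (n * z * (q * a * q⁻¹) * (n * z)⁻¹) * r =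
      r⁻¹ * n * (z * q * z⁻¹) * z * a * (r⁻¹ * n * (z * q * z⁻¹) * z)⁻¹ := by
    intro z
    group
  rw [h3]

end Pool.Agent.L7h79.FJ
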