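import Pool.Agent.Q30.FJ.GPf
import Pool.Agent.N77.GP.Basic

/-!
# Mapping tori of automorphisms of graph products which preserve the vertex groups
-/

set_option autoImplicit false

namespace Pool.Agent.L7h79.FJ

open Pool.Agent.Y110.FJ
open Pool.Agent.Y462.SS (Closed)
open Pool.Agent.N77.GP (MT tt il tt_conj zpow_conj mtLift mtLift_il mtLift_tt mt_form mt_pow mt_of
  of_comm ghom_ext)
open Q30.FJ (GProd ClosedF Mv Maps Hyp CR gpk_main crit gvert gvert_of gvert_of_ne)

variable {C : ∀ (G : Type) [Group G], Prop}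

section

variable {X : Type} {Λ : SimpleGraph X} {B : X → Type} [∀ x, Group (B x)]

/-- a subgroup of a graph product which contains the vertex groups -/
theorem top_of_verts (K : Subgroup (GrP Λ B)) (h : ∀ x b, GrP.of Λ B x b ∈ K) (y : GrP Λ B) :
    y ∈ K := by
  induction y using QuotientGroup.induction_on with
  | H z =>
    induction z using Monoid.CoprodI.induction_on with
    | one => exact K.one_mem
    | of i m => exact h i m
    | mul x y hx hy => exact K.mul_mem hx hy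

theorem of_injective (x : X) : Function.Injective (GrP.of Λ B x) := by
  intro a b h
  rw [← gvert_of (Λ := Λ) (A := B) x a, ← gvert_of (Λ := Λ) (A := B) x b, h]

variable {η : ∀ x, MulAut (B x)} {Θ : MulAut (GrP Λ B)}

theorem gvert_comm (hΘ : ∀ x b, Θ (GrP.of Λ B x b) = GrP.of Λ B x (η x b)) (x : X)
    (y : GrP Λ B) : gvert Λ B x (Θ y) = η x (gvert Λ B x y) := by
  have h1 : (gvert Λ B x).comp Θ.toMonoidHom = (η x).toMonoidHom.comp (gvert Λ B x) := by
    refine ghom_ext fun w b => ?_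
    show gvert Λ B x (Θ (GrP.of Λ B w b)) = η x (gvert Λ B x (GrP.of Λ B w b))
    rw [hΘ]
    by_cases hw : w = x
    · subst hw
      rw [gvert_of, gvert_of]
    · rw [gvert_of_ne hw, gvert_of_ne hw, map_one]
  exact DFunLike.congr_fun h1 y

/-- the retraction of the mapping torus to the mapping torus of a vertex group -/
noncomputable def rx (hΘ : ∀ x b, Θ (GrP.of Λ B x b) = GrP.of Λ B x (η x b)) (x : X) :
    MT (GrP Λ B) Θ →* MT (B x) (η x) :=
  mtLift ((il (η x)).comp (gvert Λ B x)) (tt (η x)) (by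
    intro a
    show il (η x) (gvert Λ B x (Θ a)) = tt (η x) * il (η x) (gvert Λ B x a) * (tt (η x))⁻¹
    rw [tt_conj, gvert_comm hΘ])

theorem rx_il (hΘ : ∀ x b, Θ (GrP.of Λ B x b) = GrP.of Λ B x (η x b)) (x : X) (y : GrP Λ B) :
    rx hΘ x (il Θ y) = il (η x) (gvert Λ B x y) := by
  unfold rx
  rw [mtLift_il]
  rfl

theorem conj_zpow_of (hΘ : ∀ x b, Θ (GrP.of Λ B x b) = GrP.of Λ B x (η x b)) (x : X) (j : ℤ)
    (b : B x) : tt Θ ^ j * il Θ (GrP.of Λ B x b) * (tt Θ ^ j)⁻¹ =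
      il Θ (GrP.of Λ B x ((η x ^ j) b)) := by
  have h0 : ∀ (j : ℤ) (b : B x), (Θ ^ j) (GrP.of Λ B x b) = GrP.of Λ B x ((η x ^ j) b) := by
    intro j
    induction j with
    | zero => intro b; simp
    | succ n ih =>
      intro b
      rw [zpow_add_one, MulAut.mul_apply, hΘ, ih, zpow_add_one, MulAut.mul_apply]
    | pred n ih =>
      intro b
      have h1 : Θ⁻¹ (GrP.of Λ B x b) = GrP.of Λ B x ((η x)⁻¹ b) := by
        have h2 := hΘ x ((η x)⁻¹ b)
        rw [MulAut.apply_inv_self] at h2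
        rw [← h2, MulAut.inv_apply_self]
      rw [zpow_sub_one, MulAut.mul_apply, h1, ih, zpow_sub_one, MulAut.mul_apply]
  have h1 := zpow_conj (η := Θ) (il Θ) (tt Θ) (fun a => (tt_conj a).symm) j (GrP.of Λ B x b)
  rw [← h1, h0]

/-- the vertex groups as subgroups of the mapping torus -/
def vsub (Λ : SimpleGraph X) (B : X → Type) [∀ x, Group (B x)] (Θ : MulAut (GrP Λ B)) (x : X) :
    Subgroup (MT (GrP Λ B) Θ) := ((il Θ).comp (GrP.of Λ B x)).range

/-- **vertexwise mapping tori** -/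
theorem mt_vertexwise (hF : ClosedF C) (hne : ∀ x, Nontrivial (B x))
    (hΘ : ∀ x b, Θ (GrP.of Λ B x b) = GrP.of Λ B x (η x b))
    (hC : ∀ x, C (MT (B x) (η x))) : C (MT (GrP Λ B) Θ) := by
  classical
  let N : Subgroup (MT (GrP Λ B) Θ) := (SemidirectProduct.rightHom :
    MT (GrP Λ B) Θ →* Multiplicative ℤ).ker
  have hN : ∀ x : MT (GrP Λ B) Θ, x ∈ N ↔ x.right = 1 := fun x => Iff.rfl
  have hNil : ∀ x ∈ N, x = il Θ x.left := by
    intro x hx
    apply SemidirectProduct.ext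
    · rfl
    · exact (hN x).1 hx
  have hle : ∀ x, vsub Λ B Θ x ≤ N := by
    rintro x _ ⟨b, rfl⟩
    exact rfl
  have hmaps : ∀ (x : X) (j : ℤ), Maps (tt Θ ^ j) (vsub Λ B Θ x) (vsub Λ B Θ x) := by
    have h0 : ∀ (x : X) (j : ℤ) (y : MT (GrP Λ B) Θ), y ∈ vsub Λ B Θ x →
        tt Θ ^ j * y * (tt Θ ^ j)⁻¹ ∈ vsub Λ B Θ x := by
      rintro x j _ ⟨b, rfl⟩
      refine ⟨(η x ^ j) b, ?_⟩
      exact (conj_zpow_of hΘ x j b).symm
    intro x j y
    refine ⟨h0 x j y, fun h => ?_⟩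
    have h1 := h0 x (-j) _ h
    have h2 : tt Θ ^ (-j) * (tt Θ ^ j * y * (tt Θ ^ j)⁻¹) * (tt Θ ^ (-j))⁻¹ = y := by
      rw [zpow_neg]; group
    rwa [h2] at h1
  have hform : ∀ g : MT (GrP Λ B) Θ, ∃ (n : MT (GrP Λ B) Θ) (j : ℤ), n ∈ N ∧ g = n * tt Θ ^ j :=
    fun g => ⟨il Θ g.left, Multiplicative.toAdd g.right, rfl, mt_form g⟩
  have hprod : GProd Λ (vsub Λ B Θ) N := by
    refine ⟨hle, ?_, ?_, ?_⟩
    · intro M hM x hx
      rw [hNil x hx]
      have h1 := top_of_verts (M.comap (il Θ)) (fun v b => hM v ⟨b, rfl⟩) x.left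
      exact h1
    · rintro v w hvw _ ⟨a, rfl⟩ _ ⟨b, rfl⟩
      show il Θ (GrP.of Λ B v a) * il Θ (GrP.of Λ B w b) =
        il Θ (GrP.of Λ B w b) * il Θ (GrP.of Λ B v a)
      rw [← map_mul, ← map_mul, of_comm hvw]
    · intro H _ f hf
      let F : ∀ x, B x →* H := fun x => (f x).comp ((il Θ).comp (GrP.of Λ B x)).rangeRestrict
      let φ0 : GrP Λ B →* H := Pool.Agent.N77.GP.glift F (fun v w hvw a b => hf v w hvw _ _)
      refine ⟨MonoidHom.mk' (fun n => φ0 n.1.left) ?_, ?_⟩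
      · intro a b
        have h1 : (a * b : N).1.left = a.1.left * b.1.left := by
          show (a.1 * b.1).left = _
          rw [SemidirectProduct.mul_left]
          have h2 : a.1.right = 1 := (hN _).1 a.2
          rw [h2, map_one]
          rfl
        show φ0 (a * b : N).1.left = φ0 a.1.left * φ0 b.1.left
        rw [h1, map_mul]
      · rintro v ⟨_, b, rfl⟩
        show φ0 (GrP.of Λ B v b) = _
        exact Pool.Agent.N77.GP.glift_of _ _ _ _
  have hinj : ∀ (x : X) (a : vsub Λ B Θ x), rx hΘ x a = 1 → a = 1 := by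
    rintro x ⟨_, b, rfl⟩ h
    have h1 : rx hΘ x (il Θ (GrP.of Λ B x b)) = 1 := h
    rw [rx_il, gvert_of] at h1
    have h2 : b = 1 := SemidirectProduct.inl_injective (h1.trans (map_one _).symm)
    apply Subtype.ext
    show il Θ (GrP.of Λ B x b) = 1
    rw [h2, map_one, map_one]
  have hother : ∀ (x w : X) (a : vsub Λ B Θ w), w ≠ x → rx hΘ x a = 1 := by
    rintro x w ⟨_, b, rfl⟩ h
    show rx hΘ x (il Θ (GrP.of Λ B w b)) = 1
    rw [rx_il, gvert_of_ne h, map_one]
  have hne' : ∀ x, vsub Λ B Θ x ≠ ⊥ := by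
    intro x hbot
    have := hne x
    obtain ⟨b, hb⟩ := exists_ne (1 : B x)
    rw [Subgroup.eq_bot_iff_forall] at hbot
    have h1 := hbot (il Θ (GrP.of Λ B x b)) ⟨b, rfl⟩
    have h2 : GrP.of Λ B x b = 1 := SemidirectProduct.inl_injective (h1.trans (map_one _).symm)
    exact hb (of_injective x (h2.trans (map_one _).symm))
  have hyp : Hyp C Λ (vsub Λ B Θ) N := by
    refine ⟨hprod, hne', ?_, ?_⟩
    · intro g v
      obtain ⟨n, j, hn, rfl⟩ := hform g
      refine ⟨v, n⁻¹, N.inv_mem hn, ?_⟩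
      rw [inv_mul_cancel_left]
      exact hmaps v j
    · intro v g hg
      refine ⟨MT (B v) (η v), inferInstance, (rx hΘ v).comp (vsub Λ B Θ v).subtype, rx hΘ v g,
        hC v, ?_, ?_⟩
      · rw [injective_iff_map_eq_one]
        intro a ha
        exact hinj v a ha
      · intro a a' h
        show rx hΘ v a' = rx hΘ v g * rx hΘ v a * (rx hΘ v g)⁻¹
        rw [h, map_mul, map_mul, map_inv]
  have hQ : C (MT (GrP Λ B) Θ ⧸ N) := by
    refine hF.base.base.of_injective _ (Multiplicative ℤ)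
      (QuotientGroup.kerLift (SemidirectProduct.rightHom :
        MT (GrP Λ B) Θ →* Multiplicative ℤ)) (QuotientGroup.kerLift_injective _)
      hF.base.base.int
  refine gpk_main hF hyp hQ ?_
  intro g v
  refine ⟨1, one_pos, ?_⟩
  rintro m w ⟨n, hn, hm⟩ hvw
  have := hne v
  obtain ⟨b, hb⟩ := exists_ne (1 : B v)
  have h1 : il Θ (GrP.of Λ B v b) ∈ vsub Λ B Θ v := ⟨b, rfl⟩
  have h2 := (hm _).1 h1
  have h3 := hother v w ⟨_, h2⟩ hvw.ne'
  have h4 : rx hΘ v (n * g ^ (((1 : ℕ) : ℤ) * m) * il Θ (GrP.of Λ B v b) *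
    (n * g ^ (((1 : ℕ) : ℤ) * m))⁻¹) = 1 := h3
  rw [map_mul, map_mul, map_inv, rx_il, gvert_of] at h4
  have h5 : il (η v) b = 1 := by
    have := mul_inv_eq_one.1 h4
    exact mul_eq_left.1 this
  have h6 : b = 1 := SemidirectProduct.inl_injective (h5.trans (map_one _).symm)
  exact hb h6

end

end Pool.Agent.L7h79.FJ
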