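import Pool.Agent.L7h79.FJ.Model
import Pool.Agent.L7h79.FJ.Vert

/-!
# Kernels which are graph products whose vertex groups are permuted
-/

set_option autoImplicit false

namespace Pool.Agent.L7h79.FJ

open Pool.Agent.Y110.FJ
open Pool.Agent.Y462.SS (Closed)
open Pool.Agent.N77.GP (MT tt il tt_conj zpow_conj mtLift mtLift_il mtLift_tt mt_form mt_pow mt_of
  of_comm ghom_ext glift glift_of)
open Q30.FJ (GProd ClosedF Mv Maps Hyp CR gpk_main crit gvert gvert_of gvert_of_ne)

variable {C : ∀ (G : Type) [Group G], Prop}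

section conj

variable {G : Type} [Group G]

theorem maps_zpow {V : Type} {A : V → Subgroup G} {g : G} {π : Equiv.Perm V}
    (h : ∀ v, Maps g (A v) (A (π v))) (t : ℤ) (v : V) : Maps (g ^ t) (A v) (A ((π ^ t) v)) := by
  have hinv : ∀ v, Maps g⁻¹ (A v) (A (π⁻¹ v)) := by
    intro v
    have h1 := (h (π⁻¹ v)).inv
    have h2 : π (π⁻¹ v) = v := by
      show π (π.symm v) = v
      exact Equiv.apply_symm_apply _ _
    rwa [h2] at h1
  induction t generalizing v with
  | zero =>
    rw [zpow_zero, zpow_zero]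
    exact Q30.FJ.Maps.refl _
  | succ n ih =>
    rw [zpow_add_one, zpow_add_one, Equiv.Perm.mul_apply]
    exact (h v).mul (ih _)
  | pred n ih =>
    rw [zpow_sub_one, zpow_sub_one, Equiv.Perm.mul_apply]
    exact (hinv v).mul (ih _)

/-- conjugation as a homomorphism between subgroups -/
def cj {A B : Subgroup G} (c : G) (h : Maps c A B) : A →* B :=
  MonoidHom.mk' (fun a => ⟨c * a * c⁻¹, (h a).1 a.2⟩) (by
    intro a b
    apply Subtype.ext
    show c * ((a : G) * (b : G)) * c⁻¹ = c * a * c⁻¹ * (c * b * c⁻¹)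
    group)

theorem cj_coe {A B : Subgroup G} (c : G) (h : Maps c A B) (a : A) :
    ((cj c h a : B) : G) = c * a * c⁻¹ := rfl

/-- conjugation as an automorphism of a subgroup -/
def cjAut {A : Subgroup G} (c : G) (h : Maps c A A) : MulAut A :=
  MonoidHom.toMulEquiv (cj c h) (cj c⁻¹ h.inv)
    (by
      ext a
      show c⁻¹ * (c * (a : G) * c⁻¹) * c⁻¹⁻¹ = a
      group)
    (by
      ext a
      show c * (c⁻¹ * (a : G) * c⁻¹⁻¹) * c⁻¹ = a
      group)

theorem cjAut_coe {A : Subgroup G} (c : G) (h : Maps c A A) (a : A) :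
    ((cjAut c h a : A) : G) = c * a * c⁻¹ := rfl

theorem mt_cj (hC : Closed C) {A : Subgroup G} (c : G) (h : Maps c A A)
    (hA : CR C c A) : C (MT A (cjAut c h)) := by
  obtain ⟨P, _, f, p, hP, hf, hfp⟩ := hA
  refine mt_of hC hP f hf p ?_
  intro a
  exact hfp a _ (cjAut_coe c h a)

end conj

section main

variable {G V X : Type} [Group G] {A : V → Subgroup G} {g : G} {π : Equiv.Perm V}
  {τ : Equiv.Perm X} {r : X → V} {k : X → ℤ} {Λ' : SimpleGraph X}

theorem of_congr (Λ' : SimpleGraph X) (A : V → Subgroup G) (r : X → V) {x x' : X} (h : x = x')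
    (a : A (r x)) (a' : A (r x')) (ha : (a : G) = a') :
    GrP.of Λ' (fun x => A (r x)) x a = GrP.of Λ' (fun x => A (r x)) x' a' := by
  subst h
  congr 1
  exact Subtype.ext ha

theorem maps_k (h : ∀ v, Maps g (A v) (A (π v))) (hk : ∀ x, (π ^ k x) (r x) = r (τ x)) (x : X) :
    Maps (g ^ k x) (A (r x)) (A (r (τ x))) := by
  have := maps_zpow h (k x) (r x)
  rwa [hk] at this

theorem maps_k' (h : ∀ v, Maps g (A v) (A (π v))) (hk : ∀ x, (π ^ k x) (r x) = r (τ x)) (y : X) :
    Maps (g ^ k (τ.symm y))⁻¹ (A (r y)) (A (r (τ.symm y))) := by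
  have := (maps_k h hk (τ.symm y)).inv
  rwa [Equiv.apply_symm_apply] at this

/-- the automorphism of the model -/
theorem exists_aut (h : ∀ v, Maps g (A v) (A (π v))) (hk : ∀ x, (π ^ k x) (r x) = r (τ x))
    (hΛ : ∀ x y, Λ'.Adj (τ x) (τ y) ↔ Λ'.Adj x y) :
    ∃ Θ : MulAut (GrP Λ' (fun x => A (r x))), ∀ x (a : A (r x)),
      Θ (GrP.of Λ' (fun x => A (r x)) x a) =
        GrP.of Λ' (fun x => A (r x)) (τ x) (cj (g ^ k x) (maps_k h hk x) a) := by
  have hΛs : ∀ x y, Λ'.Adj x y → Λ'.Adj (τ.symm x) (τ.symm y) := by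
    intro x y hxy
    rw [← hΛ, Equiv.apply_symm_apply, Equiv.apply_symm_apply]
    exact hxy
  let F : GrP Λ' (fun x => A (r x)) →* GrP Λ' (fun x => A (r x)) :=
    glift (fun x => (GrP.of Λ' (fun x => A (r x)) (τ x)).comp (cj (g ^ k x) (maps_k h hk x)))
      (fun v w hvw a b => of_comm ((hΛ v w).2 hvw) _ _)
  let F' : GrP Λ' (fun x => A (r x)) →* GrP Λ' (fun x => A (r x)) :=
    glift (fun y => (GrP.of Λ' (fun x => A (r x)) (τ.symm y)).comp
      (cj (g ^ k (τ.symm y))⁻¹ (maps_k' h hk y)))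
      (fun v w hvw a b => of_comm (hΛs v w hvw) _ _)
  have hF : ∀ x (a : A (r x)), F (GrP.of Λ' (fun x => A (r x)) x a) =
      GrP.of Λ' (fun x => A (r x)) (τ x) (cj (g ^ k x) (maps_k h hk x) a) :=
    fun x a => glift_of _ _ _ _
  have hF' : ∀ y (a : A (r y)), F' (GrP.of Λ' (fun x => A (r x)) y a) =
      GrP.of Λ' (fun x => A (r x)) (τ.symm y) (cj (g ^ k (τ.symm y))⁻¹ (maps_k' h hk y) a) :=
    fun y a => glift_of _ _ _ _
  refine ⟨MonoidHom.toMulEquiv F F' ?_ ?_, fun x a => hF x a⟩
  · refine ghom_ext fun x a => ?_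
    rw [MonoidHom.comp_apply, hF, hF', MonoidHom.id_apply]
    refine of_congr Λ' A r (Equiv.symm_apply_apply τ x) _ _ ?_
    rw [cj_coe, cj_coe, Equiv.symm_apply_apply]
    group
  · refine ghom_ext fun x a => ?_
    rw [MonoidHom.comp_apply, hF', hF, MonoidHom.id_apply]
    refine of_congr Λ' A r (Equiv.apply_symm_apply τ x) _ _ ?_
    rw [cj_coe, cj_coe]
    group

/-- powers of the automorphism -/
theorem aut_pow {Θ : MulAut (GrP Λ' (fun x => A (r x)))} (h : ∀ v, Maps g (A v) (A (π v)))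
    (hk : ∀ x, (π ^ k x) (r x) = r (τ x))
    (hΘ : ∀ x (a : A (r x)), Θ (GrP.of Λ' (fun x => A (r x)) x a) =
        GrP.of Λ' (fun x => A (r x)) (τ x) (cj (g ^ k x) (maps_k h hk x) a)) (n : ℕ) :
    ∀ x, ∃ K : ℤ, (π ^ K) (r x) = r ((τ ^ n) x) ∧
      ∀ (a : A (r x)) (a' : A (r ((τ ^ n) x))), (a' : G) = g ^ K * a * (g ^ K)⁻¹ →
        (Θ ^ n) (GrP.of Λ' (fun x => A (r x)) x a) =
          GrP.of Λ' (fun x => A (r x)) ((τ ^ n) x) a' := by
  induction n with
  | zero =>
    intro x
    refine ⟨0, by simp, ?_⟩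
    intro a a' haa
    rw [pow_zero, MulAut.one_apply]
    refine of_congr Λ' A r (by simp) _ _ ?_
    rw [haa]; simp
  | succ n ih =>
    intro x
    obtain ⟨K, hK, hKa⟩ := ih x
    refine ⟨k ((τ ^ n) x) + K, ?_, ?_⟩
    · rw [zpow_add, Equiv.Perm.mul_apply, hK, hk, pow_succ', Equiv.Perm.mul_apply]
    · intro a a' haa
      have hm : Maps (g ^ K) (A (r x)) (A (r ((τ ^ n) x))) := by
        have := maps_zpow h K (r x)
        rwa [hK] at this
      rw [pow_succ', MulAut.mul_apply, hKa a (cj (g ^ K) hm a) rfl, hΘ]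
      refine of_congr Λ' A r (by rw [pow_succ', Equiv.Perm.mul_apply]) _ _ ?_
      rw [cj_coe, cj_coe, haa, zpow_add]
      group

end main

/-- the realization of a conjugation which permutes the vertex groups -/
theorem realize (hF : ClosedF C) {G V : Type} [Group G] {Λ : SimpleGraph V} {A : V → Subgroup G}
    {N : Subgroup G} [N.Normal] (h : GProd Λ A N) (hne : ∀ v, A v ≠ ⊥) (g : G)
    (hperm : ∀ v : V, ∃ w, Maps g (A v) (A w)) (hperm' : ∀ v : V, ∃ w, Maps g⁻¹ (A v) (A w))
    (hC : ∀ (v : V) (t : ℤ), Maps (g ^ t) (A v) (A v) → CR C (g ^ t) (A v))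
    (E : Set G) (hE : E.Finite) (hEN : E ⊆ N) :
    ∃ (P : Type) (_ : Group P) (f : N →* P) (p : P), C P ∧
      (∀ x y : N, (x : G) ∈ Subgroup.closure (E ∪ (fun x => g * x * g⁻¹) '' E) →
        (y : G) ∈ Subgroup.closure (E ∪ (fun x => g * x * g⁻¹) '' E) → f x = f y → x = y) ∧
      ∀ x y : N, (x : G) ∈ E → (y : G) = g * x * g⁻¹ → f y = p * f x * p⁻¹ := by
  classical
  have hcl : Subgroup.closure (E ∪ (fun x => g * x * g⁻¹) '' E) ≤ N := by
    rw [Subgroup.closure_le]
    rintro x (hx | ⟨y, hy, rfl⟩)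
    · exact hEN hx
    · exact Subgroup.Normal.conj_mem inferInstance y (hEN hy) g
  -- the permutation of the vertices
  have hmv : ∀ {g : G} {v w : V}, Maps g (A v) (A w) → Mv N g (A v) (A w) := by
    intro g v w hm
    exact ⟨1, N.one_mem, by rwa [one_mul]⟩
  have huniq : ∀ {g : G} {v w w' : V}, Maps g (A v) (A w) → Maps g (A v) (A w') → w = w' :=
    fun h1 h2 => Q30.FJ.Mv.eq h hne (hmv h1) (hmv h2)
  choose f hf using hperm
  choose f' hf' using hperm'
  let π : Equiv.Perm V :=
    { toFun := f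
      invFun := f'
      left_inv := by
        intro v
        refine huniq (g := 1) (v := v) ?_ (Q30.FJ.Maps.refl _)
        have h1 := (hf v).mul (hf' (f v))
        rwa [inv_mul_cancel] at h1
      right_inv := by
        intro v
        refine huniq (g := 1) (v := v) ?_ (Q30.FJ.Maps.refl _)
        have h1 := (hf' v).mul (hf (f' v))
        rwa [mul_inv_cancel] at h1 }
  have hπ : ∀ v, Maps g (A v) (A (π v)) := fun v => hf v
  have hπs : ∀ v, Maps g⁻¹ (A v) (A (π.symm v)) := fun v => hf' v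
  -- finitely many vertices
  have hdir : Directed (· ≤ ·) (fun s : Finset V => ⨆ v ∈ s, A v) := by
    intro s t
    refine ⟨s ∪ t, ?_, ?_⟩
    · exact biSup_mono fun v hv => Finset.mem_union_left _ hv
    · exact biSup_mono fun v hv => Finset.mem_union_right _ hv
  have hNs : ∀ x ∈ N, ∃ s : Finset V, x ∈ ⨆ v ∈ s, A v := by
    intro x hx
    have h1 : N ≤ ⨆ s : Finset V, ⨆ v ∈ s, A v := by
      apply h.gen
      intro v
      refine le_trans ?_ (le_iSup _ {v})
      exact le_iSup₂_of_le v (Finset.mem_singleton_self v) le_rfl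
    exact (Subgroup.mem_iSup_of_directed hdir).1 (h1 hx)
  obtain ⟨S, hS⟩ : ∃ S : Finset V, ∀ x ∈ E, x ∈ ⨆ v ∈ S, A v := by
    choose! s hs using fun x (hx : x ∈ E) => hNs x (hEN hx)
    refine ⟨hE.toFinset.biUnion s, fun x hx => ?_⟩
    refine (biSup_mono (f := A) fun v hv => ?_) (hs x hx)
    exact Finset.mem_biUnion.2 ⟨x, hE.mem_toFinset.2 hx, hv⟩
  let T : Finset V := S ∪ S.image π
  have hST : ∀ v ∈ S, v ∈ T := fun v hv => Finset.mem_union_left _ hv
  have hπT : ∀ v ∈ S, π v ∈ T := fun v hv =>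
    Finset.mem_union_right _ (Finset.mem_image_of_mem _ hv)
  obtain ⟨X, q, τ, r, k, Λ', M, hM, hτM, hqr, hrT, hqπ, hk, hk1, hΛτ, hΛT⟩ :=
    exists_model Λ π
      (fun v w hvw => Q30.FJ.adj_pres h hne (hmv (hπ v)) (hmv (hπ w)) hvw)
      (fun v w hvw => Q30.FJ.adj_pres h hne (hmv (hπs v)) (hmv (hπs w)) hvw) T
  obtain ⟨Θ, hΘ⟩ := exists_aut (Λ' := Λ') (A := A) (g := g) hπ hk hΛτ
  -- the mapping torus of the model is in the class
  have hPC : C (MT (GrP Λ' (fun x => A (r x))) Θ) := by
    refine mt_pow hF.base.base hM ?_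
    have h1 := aut_pow hπ hk hΘ M
    have h2 : ∀ x, ∃ K : ℤ, Maps (g ^ K) (A (r x)) (A (r x)) ∧
        ∀ (a a' : A (r x)), (a' : G) = g ^ K * a * (g ^ K)⁻¹ →
          (Θ ^ M) (GrP.of Λ' (fun x => A (r x)) x a) = GrP.of Λ' (fun x => A (r x)) x a' := by
      intro x
      obtain ⟨K, hK, hKa⟩ := h1 x
      rw [hτM] at hK hKa
      refine ⟨K, ?_, hKa⟩
      have := maps_zpow hπ K (r x)
      rwa [hK] at this
    choose K hK hKa using h2
    refine mt_vertexwise hF (η := fun x => cjAut (g ^ K x) (hK x)) ?_ ?_ ?_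
    · intro x
      exact (Subgroup.nontrivial_iff_ne_bot _).2 (hne _)
    · intro x b
      exact hKa x b _ (cjAut_coe _ _ _)
    · intro x
      exact mt_cj hF.base.base _ _ (hC _ _ (hK x))
  -- the homomorphisms between the kernel and the model
  obtain ⟨φ, hφ⟩ := h.univ (GrP Λ' (fun x => A (r x)))
    (fun v => if hv : v ∈ T then (GrP.of Λ' (fun x => A (r x)) (q v)).comp
      (Subgroup.inclusion (le_of_eq (congrArg A (hrT v hv).symm))) else 1) (by
      intro v w hvw a b
      by_cases hv : v ∈ T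
      · by_cases hw : w ∈ T
        · rw [dif_pos hv, dif_pos hw]
          exact of_comm ((hΛT v hv w hw).2 hvw) _ _
        · rw [dif_neg hw]; simp
      · rw [dif_neg hv]; simp)
  have hφT : ∀ v (hv : v ∈ T) (a : A v), φ ⟨a, h.le v a.2⟩ =
      GrP.of Λ' (fun x => A (r x)) (q v)
        (Subgroup.inclusion (le_of_eq (congrArg A (hrT v hv).symm)) a) := by
    intro v hv a
    rw [hφ, dif_pos hv]
    rfl
  let ψ : GrP Λ' (fun x => A (r x)) →* N := glift
    (fun x => if r x ∈ T then Subgroup.inclusion (h.le (r x)) else 1) (by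
      intro x y hxy a b
      by_cases hx : r x ∈ T
      · by_cases hy : r y ∈ T
        · rw [if_pos hx, if_pos hy]
          apply Subtype.ext
          have h1 : Λ.Adj (r x) (r y) := by
            rw [← hΛT _ hx _ hy, hqr, hqr]
            exact hxy
          exact h.comm _ _ h1 a a.2 b b.2
        · rw [if_neg hy]; simp
      · rw [if_neg hx]; simp)
  have hψ : ∀ x (a : A (r x)), r x ∈ T → ((ψ (GrP.of Λ' (fun x => A (r x)) x a) : N) : G) = a := by
    intro x a hx
    show ((glift _ _ (GrP.of Λ' (fun x => A (r x)) x a) : N) : G) = a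
    rw [glift_of, if_pos hx]
    rfl
  have hclT : ∀ (x : N), (x : G) ∈ (⨆ v ∈ T, A v) → ψ (φ x) = x := by
    have h1 : (⨆ v ∈ T, A v) ≤ ((ψ.comp φ).eqLocus (MonoidHom.id N)).map N.subtype := by
      refine iSup₂_le fun v hv a ha => ?_
      refine ⟨⟨a, h.le v ha⟩, ?_, rfl⟩
      show ψ (φ ⟨a, h.le v ha⟩) = ⟨a, h.le v ha⟩
      rw [hφT v hv ⟨a, ha⟩]
      apply Subtype.ext
      rw [hψ _ _ (by rw [hrT v hv]; exact hv)]
      rfl
    intro x hx
    obtain ⟨y, hy, hyx⟩ := h1 hx
    have h2 : y = x := Subtype.ext hyx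
    rw [← h2]
    exact hy
  have hsupT : Subgroup.closure (E ∪ (fun x => g * x * g⁻¹) '' E) ≤ ⨆ v ∈ T, A v := by
    rw [Subgroup.closure_le]
    have h1 : (⨆ v ∈ S, A v) ≤ ⨆ v ∈ T, A v := biSup_mono hST
    have h2 : (⨆ v ∈ S, A v) ≤ (⨆ v ∈ T, A v).comap (MulAut.conj g).toMonoidHom := by
      refine iSup₂_le fun v hv a ha => ?_
      have h3 : g * a * g⁻¹ ∈ A (π v) := (hπ v a).1 ha
      exact (le_iSup₂_of_le (f := fun v (_ : v ∈ T) => A v) (π v) (hπT v hv) le_rfl) h3
    rintro x (hx | ⟨y, hy, rfl⟩)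
    · exact h1 (hS x hx)
    · exact h2 (hS y hy)
  have hreal : ∀ (x y : N), (x : G) ∈ (⨆ v ∈ S, A v) → (y : G) = g * x * g⁻¹ →
      φ y = Θ (φ x) := by
    let c : N →* N := MonoidHom.mk' (fun z => ⟨g * z * g⁻¹,
      Subgroup.Normal.conj_mem inferInstance _ z.2 g⟩) (by
        intro z w
        apply Subtype.ext
        show g * ((z : G) * (w : G)) * g⁻¹ = g * z * g⁻¹ * (g * w * g⁻¹)
        group)
    have h1 : (⨆ v ∈ S, A v) ≤
        ((φ.comp c).eqLocus (Θ.toMonoidHom.comp φ)).map N.subtype := by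
      refine iSup₂_le fun v hv a ha => ?_
      refine ⟨⟨a, h.le v ha⟩, ?_, rfl⟩
      show φ (c ⟨a, h.le v ha⟩) = Θ (φ ⟨a, h.le v ha⟩)
      have h3 : g * a * g⁻¹ ∈ A (π v) := (hπ v a).1 ha
      have h4 : c ⟨a, h.le v ha⟩ = ⟨g * a * g⁻¹, h.le _ h3⟩ := rfl
      rw [h4, hφT (π v) (hπT v hv) ⟨_, h3⟩, hφT v (hST v hv) ⟨a, ha⟩, hΘ]
      refine of_congr Λ' A r (hqπ v) _ _ ?_
      rw [cj_coe]
      show g * a * g⁻¹ = g ^ k (q v) * a * (g ^ k (q v))⁻¹
      rw [hk1 v (hST v hv) (hπT v hv), zpow_one]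
    intro x y hx hy
    obtain ⟨z, hz, hzx⟩ := h1 hx
    have h2 : z = x := Subtype.ext hzx
    rw [← h2] at hy ⊢
    have h3 : y = c z := Subtype.ext hy
    rw [h3]
    exact hz
  refine ⟨MT (GrP Λ' (fun x => A (r x))) Θ, inferInstance, (il Θ).comp φ, tt Θ, hPC, ?_, ?_⟩
  · intro x y hx hy hxy
    have h1 : φ x = φ y := SemidirectProduct.inl_injective hxy
    have h2 := congrArg ψ h1
    rwa [hclT _ (hsupT hx), hclT _ (hsupT hy)] at h2
  · intro x y hx hy
    show il Θ (φ y) = tt Θ * il Θ (φ x) * (tt Θ)⁻¹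
    rw [tt_conj, hreal x y (hS _ hx) hy]

/-- **kernels which are graph products whose vertex groups are permuted** by representatives of the
cosets of the kernel -/
theorem gw_main (hF : ClosedF C) {G V : Type} [Group G] {Λ : SimpleGraph V} {A : V → Subgroup G}
    {N : Subgroup G} [N.Normal] (h : GProd Λ A N) (hQ : C (G ⧸ N)) (hne : ∀ v, A v ≠ ⊥)
    (hperm : ∀ g : G, ∃ n ∈ N, (∀ v : V, ∃ w, Maps (n * g) (A v) (A w)) ∧
      ∀ v : V, ∃ w, Maps (n * g)⁻¹ (A v) (A w))
    (hC : ∀ (v : V) (g : G), Maps g (A v) (A v) → CR C g (A v)) : C G := by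
  classical
  refine crit C hF.base G N hQ ?_
  intro g E hE hEN
  have hcl : Subgroup.closure (E ∪ (fun x => g * x * g⁻¹) '' E) ≤ N := by
    rw [Subgroup.closure_le]
    rintro x (hx | ⟨y, hy, rfl⟩)
    · exact hEN hx
    · exact Subgroup.Normal.conj_mem inferInstance y (hEN hy) g
  obtain ⟨n, hn, hp, hp'⟩ := hperm g
  obtain ⟨P, _, f, p, hP, hf, hfp⟩ := realize hF h hne (n * g) hp hp'
    (fun v t ht => hC v _ ht) (E ∪ {n}) (hE.union (Set.finite_singleton n)) (by
      rintro x (hx | hx)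
      · exact hEN hx
      · rw [Set.mem_singleton_iff.1 hx]; exact hn)
  have hsub : Subgroup.closure (E ∪ (fun x => g * x * g⁻¹) '' E) ≤
      Subgroup.closure ((E ∪ {n}) ∪ (fun x => n * g * x * (n * g)⁻¹) '' (E ∪ {n})) := by
    rw [Subgroup.closure_le]
    rintro x (hx | ⟨y, hy, rfl⟩)
    · exact Subgroup.subset_closure (Or.inl (Or.inl hx))
    · have h1 : n ∈ Subgroup.closure ((E ∪ {n}) ∪ (fun x => n * g * x * (n * g)⁻¹) '' (E ∪ {n})) :=
        Subgroup.subset_closure (Or.inl (Or.inr rfl))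
      have h2 : n * g * y * (n * g)⁻¹ ∈
          Subgroup.closure ((E ∪ {n}) ∪ (fun x => n * g * x * (n * g)⁻¹) '' (E ∪ {n})) :=
        Subgroup.subset_closure (Or.inr ⟨y, Or.inl hy, rfl⟩)
      have h3 : g * y * g⁻¹ = n⁻¹ * (n * g * y * (n * g)⁻¹) * n := by group
      show g * y * g⁻¹ ∈ _
      rw [h3]
      exact Subgroup.mul_mem _ (Subgroup.mul_mem _ (Subgroup.inv_mem _ h1) h2) h1
  refine ⟨P, inferInstance, f.comp (Subgroup.inclusion hcl), (f ⟨n, hn⟩)⁻¹ * p, hP, ?_, ?_⟩
  · intro x y hxy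
    exact Subgroup.inclusion_injective hcl (hf _ _ (hsub x.2) (hsub y.2) hxy)
  · intro x y hx hy
    have hz : n * (y : G) * n⁻¹ ∈ N := N.mul_mem (N.mul_mem hn (hcl y.2)) (N.inv_mem hn)
    have h1 := hfp (Subgroup.inclusion hcl x) ⟨n * y * n⁻¹, hz⟩ (Or.inl hx) (by
      show n * (y : G) * n⁻¹ = n * g * x * (n * g)⁻¹
      rw [hy]; group)
    have h2 : (⟨n * y * n⁻¹, hz⟩ : N) = ⟨n, hn⟩ * Subgroup.inclusion hcl y * (⟨n, hn⟩ : N)⁻¹ :=
      Subtype.ext rfl
    rw [h2, map_mul, map_mul, map_inv] at h1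
    show f (Subgroup.inclusion hcl y) = (f ⟨n, hn⟩)⁻¹ * p * f (Subgroup.inclusion hcl x) *
      ((f ⟨n, hn⟩)⁻¹ * p)⁻¹
    have h3 : f (Subgroup.inclusion hcl y) = (f ⟨n, hn⟩)⁻¹ *
        (f ⟨n, hn⟩ * f (Subgroup.inclusion hcl y) * (f ⟨n, hn⟩)⁻¹) * f ⟨n, hn⟩ := by group
    rw [h3, h1]
    group

/-- **graph-wreath products** -/
theorem gwr (hF : ClosedF C) (V Q A : Type) [Group Q] [Group A] [MulAction Q V] [Nonempty V]
    (Λ : SimpleGraph V) (α : Q →* MulAut (GrP Λ (fun _ => A)))
    (hα : ∀ q : Q, IsPerm Λ A (MulAction.toPerm q) (α q)) :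
    C (GrP Λ (fun _ => A) ⋊[α] Q) ↔ C A ∧ C Q := by
  classical
  constructor
  · intro h
    obtain ⟨v⟩ := ‹Nonempty V›
    refine ⟨hF.base.base.of_injective _ _
      (SemidirectProduct.inl.comp (GrP.of Λ (fun _ => A) v)) ?_ h,
      hF.base.base.of_injective _ _ SemidirectProduct.inr SemidirectProduct.inr_injective h⟩
    exact SemidirectProduct.inl_injective.comp (of_injective v)
  · rintro ⟨hA, hQ⟩
    obtain ⟨N, hNdef⟩ : ∃ N : Subgroup (GrP Λ (fun _ => A) ⋊[α] Q), N =
      (SemidirectProduct.rightHom : GrP Λ (fun _ => A) ⋊[α] Q →* Q).ker := ⟨_, rfl⟩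
    have hNn : N.Normal := by rw [hNdef]; infer_instance
    have hN : ∀ x : GrP Λ (fun _ => A) ⋊[α] Q, x ∈ N ↔ x.right = 1 := by
      intro x; rw [hNdef]; rfl
    have hQN : C ((GrP Λ (fun _ => A) ⋊[α] Q) ⧸ N) := by
      refine hF.base.base.of_injective _ Q ?_ ?_ hQ
      · exact (QuotientGroup.quotientKerEquivOfSurjective _
          SemidirectProduct.rightHom_surjective).toMonoidHom.comp
          (QuotientGroup.quotientMulEquivOfEq hNdef).toMonoidHom
      · exact (QuotientGroup.quotientKerEquivOfSurjective _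
          SemidirectProduct.rightHom_surjective).injective.comp
          (QuotientGroup.quotientMulEquivOfEq hNdef).injective
    rcases subsingleton_or_nontrivial A with hs | hnt
    · -- the graph product is trivial
      have htriv : ∀ y : GrP Λ (fun _ => A), y = 1 := by
        intro y
        have h1 := top_of_verts (⊥ : Subgroup (GrP Λ (fun _ => A))) (fun x b => by
          rw [Subsingleton.elim b 1, map_one]; exact Subgroup.one_mem _) y
        exact Subgroup.mem_bot.1 h1
      refine hF.base.base.of_injective _ Q SemidirectProduct.rightHom ?_ hQ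
      intro x y hxy
      apply SemidirectProduct.ext
      · rw [htriv x.left, htriv y.left]
      · exact hxy
    · let B : V → Subgroup (GrP Λ (fun _ => A) ⋊[α] Q) := fun v =>
        (SemidirectProduct.inl.comp (GrP.of Λ (fun _ => A) v)).range
      have hBof : ∀ (v : V) (b : A), SemidirectProduct.inl (GrP.of Λ (fun _ => A) v b) ∈ B v :=
        fun v b => ⟨b, rfl⟩
      have hle : ∀ v, B v ≤ N := by
        rintro v _ ⟨b, rfl⟩
        exact (hN _).2 rfl
      have hil : ∀ x ∈ N, x = SemidirectProduct.inl x.left := by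
        intro x hx
        apply SemidirectProduct.ext
        · rfl
        · exact (hN x).1 hx
      have hprod : GProd Λ B N := by
        refine ⟨hle, ?_, ?_, ?_⟩
        · intro M hM x hx
          rw [hil x hx]
          exact top_of_verts (M.comap SemidirectProduct.inl) (fun v b => hM v ⟨b, rfl⟩) x.left
        · rintro v w hvw _ ⟨a, rfl⟩ _ ⟨b, rfl⟩
          show SemidirectProduct.inl (GrP.of Λ (fun _ => A) v a) *
            SemidirectProduct.inl (GrP.of Λ (fun _ => A) w b) =
            SemidirectProduct.inl (GrP.of Λ (fun _ => A) w b) *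
            SemidirectProduct.inl (GrP.of Λ (fun _ => A) v a)
          rw [← map_mul, ← map_mul, of_comm hvw]
        · intro H _ f hf
          let F : ∀ _ : V, A →* H := fun v => (f v).comp
            (SemidirectProduct.inl.comp (GrP.of Λ (fun _ => A) v)).rangeRestrict
          let φ0 : GrP Λ (fun _ => A) →* H := glift F (fun v w hvw a b => hf v w hvw _ _)
          refine ⟨MonoidHom.mk' (fun n => φ0 n.1.left) ?_, ?_⟩
          · intro a b
            have h1 : (a * b : N).1.left = a.1.left * b.1.left := by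
              show (a.1 * b.1).left = _
              rw [SemidirectProduct.mul_left]
              have h2 : a.1.right = 1 := (hN _).1 a.2
              rw [h2, map_one]
              rfl
            show φ0 (a * b : N).1.left = φ0 a.1.left * φ0 b.1.left
            rw [h1, map_mul]
          · rintro v ⟨_, b, rfl⟩
            show φ0 (GrP.of Λ (fun _ => A) v b) = _
            exact glift_of _ _ _ _
      have hne : ∀ v, B v ≠ ⊥ := by
        intro v hbot
        obtain ⟨b, hb⟩ := exists_ne (1 : A)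
        rw [Subgroup.eq_bot_iff_forall] at hbot
        have h1 := hbot _ (hBof v b)
        have h2 : GrP.of Λ (fun _ => A) v b = 1 :=
          SemidirectProduct.inl_injective (h1.trans (map_one _).symm)
        exact hb (of_injective v (h2.trans (map_one _).symm))
      -- conjugation
      have hconj : ∀ (q : Q) (v : V) (b : A),
          (SemidirectProduct.inr q : GrP Λ (fun _ => A) ⋊[α] Q) *
            SemidirectProduct.inl (GrP.of Λ (fun _ => A) v b) * (SemidirectProduct.inr q)⁻¹ =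
          SemidirectProduct.inl (GrP.of Λ (fun _ => A) (q • v) b) := by
        intro q v b
        have h1 := SemidirectProduct.inl_aut (φ := α) q (GrP.of Λ (fun _ => A) v b)
        rw [hα q v b, map_inv] at h1
        exact h1.symm
      have hmaps : ∀ (q : Q) (v : V), Maps (SemidirectProduct.inr q) (B v) (B (q • v)) := by
        have h0 : ∀ (q : Q) (v : V) (x : GrP Λ (fun _ => A) ⋊[α] Q), x ∈ B v →
            SemidirectProduct.inr q * x * (SemidirectProduct.inr q)⁻¹ ∈ B (q • v) := by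
          rintro q v _ ⟨b, rfl⟩
          exact ⟨b, (hconj q v b).symm⟩
        intro q v x
        refine ⟨h0 q v x, fun hx => ?_⟩
        have h1 := h0 q⁻¹ (q • v) _ hx
        rw [inv_smul_smul] at h1
        have h2 : (SemidirectProduct.inr q⁻¹ : GrP Λ (fun _ => A) ⋊[α] Q) *
            (SemidirectProduct.inr q * x * (SemidirectProduct.inr q)⁻¹) *
            (SemidirectProduct.inr q⁻¹)⁻¹ = x := by
          rw [map_inv]; group
        rwa [h2] at h1
      refine gw_main hF hprod hQN hne ?_ ?_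
      · intro g
        have h1 : (SemidirectProduct.inl g.left : GrP Λ (fun _ => A) ⋊[α] Q)⁻¹ * g =
            SemidirectProduct.inr g.right := by
          rw [inv_mul_eq_iff_eq_mul]
          exact (SemidirectProduct.inl_left_mul_inr_right g).symm
        refine ⟨(SemidirectProduct.inl g.left)⁻¹, N.inv_mem ((hN _).2 rfl), ?_, ?_⟩
        · intro v
          rw [h1]
          exact ⟨_, hmaps g.right v⟩
        · intro v
          rw [h1, ← map_inv]
          exact ⟨_, hmaps g.right⁻¹ v⟩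
      · intro v g hg
        have hpv : ∀ x : B v, x.1 = SemidirectProduct.inl x.1.left := fun x => hil _ (hle v x.2)
        refine ⟨A, inferInstance, MonoidHom.mk' (fun x => gvert Λ (fun _ => A) v x.1.left) ?_,
          gvert Λ (fun _ => A) v g.left, hA, ?_, ?_⟩
        · intro x y
          have h2 : x.1.right = 1 := (hN _).1 (hle v x.2)
          show gvert Λ (fun _ => A) v (x.1 * y.1).left = _
          rw [SemidirectProduct.mul_left, h2, map_one]
          exact map_mul _ _ _
        · rintro ⟨_, b, rfl⟩ ⟨_, b', rfl⟩ hxy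
          have h2 : gvert Λ (fun _ => A) v (GrP.of Λ (fun _ => A) v b) =
            gvert Λ (fun _ => A) v (GrP.of Λ (fun _ => A) v b') := hxy
          rw [gvert_of, gvert_of] at h2
          rw [h2]
        · -- the vertex is fixed
          have hleft : ∀ b : A, (g * SemidirectProduct.inl (GrP.of Λ (fun _ => A) v b) * g⁻¹).left =
              g.left * GrP.of Λ (fun _ => A) (g.right • v) b * g.left⁻¹ := by
            intro b
            have h3 := hconj g.right v b
            have h4 : g * SemidirectProduct.inl (GrP.of Λ (fun _ => A) v b) * g⁻¹ =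
                SemidirectProduct.inl g.left * ((SemidirectProduct.inr g.right) *
                  SemidirectProduct.inl (GrP.of Λ (fun _ => A) v b) *
                  (SemidirectProduct.inr g.right)⁻¹) * (SemidirectProduct.inl g.left)⁻¹ := by
              conv_lhs => rw [← SemidirectProduct.inl_left_mul_inr_right g]
              group
            rw [h4, h3, ← map_inv, ← map_mul, ← map_mul]
            rfl
          have hfix : g.right • v = v := by
            by_contra hc
            obtain ⟨b, hb⟩ := exists_ne (1 : A)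
            obtain ⟨b', hb'⟩ := (hg _).1 (hBof v b)
            have h5 : GrP.of Λ (fun _ => A) v b' =
                g.left * GrP.of Λ (fun _ => A) (g.right • v) b * g.left⁻¹ := by
              rw [← hleft b, ← hb']
              rfl
            have h6 := congrArg (gvert Λ (fun _ => A) v) h5
            rw [map_mul, map_mul, map_inv, gvert_of_ne hc, gvert_of, mul_one, mul_inv_cancel] at h6
            rw [h6, map_one] at h5
            have h7 : GrP.of Λ (fun _ => A) (g.right • v) b = 1 := by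
              have := mul_inv_eq_one.1 h5.symm
              exact mul_eq_left.1 this
            exact hb (of_injective _ (h7.trans (map_one _).symm))
          rintro ⟨_, b, rfl⟩ ⟨x', hx'⟩ he
          have he' : x' = g * SemidirectProduct.inl (GrP.of Λ (fun _ => A) v b) * g⁻¹ := he
          subst he'
          show gvert Λ (fun _ => A) v (g * SemidirectProduct.inl (GrP.of Λ (fun _ => A) v b) *
            g⁻¹).left = gvert Λ (fun _ => A) v g.left *
              gvert Λ (fun _ => A) v (GrP.of Λ (fun _ => A) v b) * (gvert Λ (fun _ => A) v g.left)⁻¹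
          rw [hleft b, hfix, map_mul, map_mul, map_inv]

end Pool.Agent.L7h79.FJ
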