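import Pool.Agent.L7h79.FJ.GW

/-!
# Graph-wreath products: kernels which are graph products along any graph

`C` is any class of groups with the closure properties `ClosedF C`: it contains `ℤ`, it is closed under
subgroups, finite products, free products, overgroups of finite index and directed colimits with
arbitrary structure maps, it satisfies the extension criterion of the Farrell–Jones conjecture (`G` is in
`C` if `Q` and the preimages in `G` of all virtually cyclic subgroups of the quotient `Q` of `G` are), and
it is closed under extensions with free kernels. All this is published for the class of the groups
that satisfy the Full Farrell–Jones Conjecture.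

Let `N` be a normal subgroup of `G` with `G ⧸ N` in `C`, and suppose that `N` is the graph product of
nontrivial subgroups `A v`, `v ∈ V`, along any graph `Λ` on any set `V` (`GProd Λ A N`: the `A v` generate
`N`, and the relations between them are those in the `A v` and that `A v` and `A w` commute for adjacent
`v`, `w`). Suppose that every coset `N g` has an element `n g` that permutes the subgroups `A v` by
conjugation. If for all `v` and all `g` in `G` which normalize `A v` the conjugation by `g` on `A v` is
realized by an inner automorphism in a group in `C` that contains `A v` (`CR C g (A v)`; for instance if
the subgroup `A v ⟨g⟩` of `G` is in `C`), then `G` is in `C`.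

There is no condition on the graph or on the orbits: elements of `G` may have infinite orbits of
pairwise adjacent vertices. Only representatives of the cosets have to permute the `A v`. In
particular let `Q` act on `Λ` and on the graph product `G(Λ, A)` of copies of a group `A` by permutations
of the vertex groups. The graph-wreath product `G(Λ, A) ⋊ Q` is in `C` if (and only if) `A` and `Q` are in
`C` (`Pool.Agent.L7h79.FJ.gwr`). The wreath products `A ≀ Q` over any `Q`-set are the case of a complete
graph, and the free products `A * Q` the one of `V = Q` without edges; between them there are for
instance all extensions of `Q` by right-angled Artin or Coxeter groups of infinite rank whose standard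
generators are permuted by `Q`.

Outline of the proof.

* By the realization criterion (R779) it is enough to realize, for `g` in `G` and a finite subset `E` of
  `N`, the conjugation by `g` on `E` in some group `P` in `C` that contains `⟨E ∪ g E g⁻¹⟩`. One may
  multiply `g` by an element of `N` (added to `E`), so that `g A v g⁻¹ = A (π v)` for a permutation `π` of
  `V`. The set `E` lies in the subgroup generated by `A v`, `v ∈ S`, with a finite set `S`; put
  `T = S ∪ π S`.
* Finite-order model of the permuted graph (`exists_model`): let `M > 0` be such that `π ^ M` fixes the
  elements of `T` with finite orbits and that elements of `T` in one infinite orbit have distances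
  smaller than `M / 2`. Let `X` be the set of the orbits of `π ^ M` and `τ` the permutation of `X` induced by
  `π`, with `τ ^ M = 1`. The set `T` embeds in `X`; let `r` be a section of `V → X` which is the identity on `T`,
  and let `Λ'` be the graph on `X` whose edges are the images under the powers of `τ` of the edges of `Λ`
  between elements of `T`. By the choice of `M` the subgraph of `Λ'` induced on `T` is the one of `Λ`.
* The groups `A (r x)`, `x ∈ X`, form a graph product `H` along `Λ'`; it has an automorphism `Θ` which maps
  `A (r x)` to `A (r (τ x))` by the conjugation with a power `g ^ k(x)`, where `k = 1` at the places used by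
  `S`. The subgroup of `N` generated by the `A v`, `v ∈ T`, is a retract of `N` and embeds in `H`, and `Θ`
  realizes the conjugation by `g` on `E`. So `P` is the mapping torus of `Θ`.
* `P` is in `C`: it has the mapping torus of `Θ ^ M` as a subgroup of finite index (up to a finite group),
  and `Θ ^ M` maps every vertex group of `H` to itself by the conjugation with an element of `G`. For such
  an automorphism the theorem about invariant colorings with finitely many colors of the library
  Q30 (kernels of retractions of graph products are graph products) applies with all orbits trivial.
-/

set_option autoImplicit false

namespace Pool.Agent.Results.MP_490288_al.GraphWreathKernels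

open Q30.FJ (GProd ClosedF Maps CR)

theorem result (C : ∀ (G : Type) [Group G], Prop) (hC : ClosedF C)
    (G : Type) [Group G] (N : Subgroup G) [N.Normal] (hQ : C (G ⧸ N))
    (V : Type) (Λ : SimpleGraph V) (A : V → Subgroup G) (hN : GProd Λ A N)
    (hne : ∀ v, A v ≠ ⊥)
    (hperm : ∀ g : G, ∃ n ∈ N, ∃ σ : Equiv.Perm V, ∀ v, Maps (n * g) (A v) (A (σ v)))
    (hcr : ∀ (v : V) (g : G), Maps g (A v) (A v) → CR C g (A v)) : C G := by
  refine Pool.Agent.L7h79.FJ.gw_main hC hN hQ hne ?_ hcr
  intro g
  obtain ⟨n, hn, σ, hσ⟩ := hperm g
  refine ⟨n, hn, fun v => ⟨σ v, hσ v⟩, fun v => ⟨σ.symm v, ?_⟩⟩
  have h := (hσ (σ.symm v)).inv
  rwa [Equiv.apply_symm_apply] at h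

end Pool.Agent.Results.MP_490288_al.GraphWreathKernels
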