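import Mathlib

/-!
# Finite-order models of a permutation of the vertices of a graph
-/

set_option autoImplicit false

namespace Pool.Agent.L7h79.FJ

open Equiv

variable {V : Type}

theorem exists_period (π : Perm V) (v : V) : ∃ m : ℕ, 0 < m ∧
    ((π ^ m) v = v ∨ ∀ t : ℤ, (π ^ t) v = v → t = 0) := by
  by_cases h : ∃ m : ℕ, 0 < m ∧ (π ^ m) v = v
  · obtain ⟨m, hm, hv⟩ := h
    exact ⟨m, hm, Or.inl hv⟩
  · refine ⟨1, one_pos, Or.inr fun t ht => ?_⟩
    by_contra h0
    apply h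
    refine ⟨t.natAbs, Int.natAbs_pos.2 h0, ?_⟩
    rcases Int.natAbs_eq t with h1 | h1
    · rw [h1, zpow_natCast] at ht
      exact ht
    · rw [h1, zpow_neg, zpow_natCast, Perm.inv_eq_iff_eq] at ht
      exact ht.symm

theorem pow_mul_fix {π : Perm V} {v : V} {m : ℕ} (h : (π ^ m) v = v) (c : ℤ) :
    (π ^ ((m : ℤ) * c)) v = v := by
  have h1 : π ^ m ∈ MulAction.stabilizer (Perm V) v := h
  have h2 := (MulAction.stabilizer (Perm V) v).zpow_mem h1 c
  rw [← zpow_natCast, ← zpow_mul] at h2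
  exact h2

/-- a modulus which does not identify the relative positions of the elements of a finite set -/
theorem exists_mod (π : Perm V) (T : Finset V) : ∃ M : ℕ, 0 < M ∧
    ∀ v ∈ T, ∀ v' ∈ T, ∀ w ∈ T, ∀ w' ∈ T, ∀ a b j : ℤ,
      v = (π ^ ((M : ℤ) * a + j)) v' → w = (π ^ ((M : ℤ) * b + j)) w' →
      ∃ t : ℤ, v = (π ^ t) v' ∧ w = (π ^ t) w' := by
  classical
  choose m hm hper using exists_period π
  let d : V → V → ℤ := fun v v' => if h : ∃ t : ℤ, v = (π ^ t) v' then h.choose else 0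
  let D : ℕ := ∑ v ∈ T, ∑ v' ∈ T, (d v v').natAbs
  have hD : ∀ v ∈ T, ∀ v' ∈ T, (d v v').natAbs ≤ D := by
    intro v hv v' hv'
    calc (d v v').natAbs ≤ ∑ v' ∈ T, (d v v').natAbs :=
          Finset.single_le_sum (f := fun v' => (d v v').natAbs) (fun _ _ => Nat.zero_le _) hv'
      _ ≤ D := Finset.single_le_sum (f := fun v => ∑ v' ∈ T, (d v v').natAbs)
          (fun _ _ => Nat.zero_le _) hv
  let L : ℕ := ∏ v ∈ T, m v
  have hL : 0 < L := Finset.prod_pos fun v _ => hm v
  refine ⟨L * (2 * D + 1), Nat.mul_pos hL (Nat.succ_pos _), ?_⟩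
  intro v hv v' hv' w hw w' hw' a b j hva hwb
  obtain ⟨M, hM⟩ : ∃ M : ℕ, M = L * (2 * D + 1) := ⟨_, rfl⟩
  rw [← hM] at hva hwb
  have hdvd : ∀ u ∈ T, m u ∣ M := fun u hu => by
    rw [hM]
    exact Dvd.dvd.mul_right (Finset.dvd_prod_of_mem m hu) _
  have hfix : ∀ u ∈ T, (π ^ m u) u = u → ∀ c : ℤ, (π ^ ((M : ℤ) * c)) u = u := by
    intro u hu hmu c
    obtain ⟨e, he⟩ := hdvd u hu
    have h1 := pow_mul_fix hmu ((e : ℤ) * c)
    rw [he]
    push_cast
    rwa [mul_assoc]
  rcases hper w' with h1 | h1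
  · refine ⟨(M : ℤ) * a + j, hva, ?_⟩
    have h2 := hfix w' hw' h1 (a - b)
    have h3 : (M : ℤ) * a + j = ((M : ℤ) * b + j) + (M : ℤ) * (a - b) := by ring
    rw [h3, zpow_add, Perm.mul_apply, h2]
    exact hwb
  rcases hper v' with h2 | h2
  · refine ⟨(M : ℤ) * b + j, ?_, hwb⟩
    have h3 := hfix v' hv' h2 (b - a)
    have h4 : (M : ℤ) * b + j = ((M : ℤ) * a + j) + (M : ℤ) * (b - a) := by ring
    rw [h4, zpow_add, Perm.mul_apply, h3]
    exact hva
  -- both orbits are infinite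
  have key : ∀ u u' : V, (∀ t : ℤ, (π ^ t) u' = u' → t = 0) → ∀ s : ℤ, u = (π ^ s) u' →
      s = d u u' := by
    intro u u' hu s hs
    have hex : ∃ t : ℤ, u = (π ^ t) u' := ⟨s, hs⟩
    have h3 : d u u' = hex.choose := dif_pos hex
    have h4 := hex.choose_spec
    rw [← h3] at h4
    have h5 : (π ^ (-(d u u') + s)) u' = u' := by
      rw [zpow_add, Perm.mul_apply, ← hs, h4, ← Perm.mul_apply, ← zpow_add]
      rw [← h4]
      simp
    have := hu _ h5
    omega
  have e1 := key v v' h2 _ hva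
  have e2 := key w w' h1 _ hwb
  have b1 := hD v hv v' hv'
  have b2 := hD w hw w' hw'
  have h5 : (M : ℤ) * (a - b) = d v v' - d w w' := by linarith
  have h6 : a - b = 0 := by
    by_contra h0
    have h7 : (M : ℤ) ≤ |(M : ℤ) * (a - b)| := by
      rw [abs_mul, Nat.abs_cast]
      have : (1 : ℤ) ≤ |a - b| := Int.one_le_abs h0
      nlinarith [Int.natCast_nonneg M]
    have h8 : |d v v' - d w w'| ≤ 2 * D := by
      have h9 := abs_sub (d v v') (d w w')
      rw [Int.abs_eq_natAbs (d v v'), Int.abs_eq_natAbs (d w w')] at h9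
      omega
    have h9 : (2 * D + 1 : ℕ) ≤ M := by
      rw [hM]
      exact Nat.le_mul_of_pos_left _ hL
    rw [h5] at h7
    omega
  have h7 : a = b := by omega
  refine ⟨(M : ℤ) * a + j, hva, ?_⟩
  rw [h7]
  exact hwb

/-- **model**: a quotient on which the permutation has finite order and which agrees with the graph on
a given finite set -/
theorem exists_model (Λ : SimpleGraph V) (π : Perm V)
    (hΛ : ∀ v w, Λ.Adj v w → Λ.Adj (π v) (π w)) (hΛ' : ∀ v w, Λ.Adj v w → Λ.Adj (π.symm v) (π.symm w))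
    (T : Finset V) :
    ∃ (X : Type) (q : V → X) (τ : Perm X) (r : X → V) (k : X → ℤ) (Λ' : SimpleGraph X) (M : ℕ),
      0 < M ∧ τ ^ M = 1 ∧ (∀ x, q (r x) = x) ∧ (∀ v ∈ T, r (q v) = v) ∧
      (∀ v, q (π v) = τ (q v)) ∧
      (∀ x, (π ^ k x) (r x) = r (τ x)) ∧ (∀ v ∈ T, π v ∈ T → k (q v) = 1) ∧
      (∀ x y, Λ'.Adj (τ x) (τ y) ↔ Λ'.Adj x y) ∧
      (∀ v ∈ T, ∀ w ∈ T, Λ'.Adj (q v) (q w) ↔ Λ.Adj v w) := by
  classical
  have hz : ∀ (t : ℤ) (v w : V), Λ.Adj v w → Λ.Adj ((π ^ t) v) ((π ^ t) w) := by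
    intro t
    induction t with
    | zero => intro v w h; simpa using h
    | succ n ih =>
      intro v w h
      rw [zpow_add_one, Perm.mul_apply, Perm.mul_apply]
      exact ih _ _ (hΛ _ _ h)
    | pred n ih =>
      intro v w h
      rw [zpow_sub_one, Perm.mul_apply, Perm.mul_apply]
      exact ih _ _ (hΛ' _ _ h)
  obtain ⟨M, hM, hmod⟩ := exists_mod π T
  let s : Setoid V :=
    { r := fun v w => ∃ a : ℤ, w = (π ^ ((M : ℤ) * a)) v
      iseqv :=
        { refl := fun v => ⟨0, by simp⟩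
          symm := by
            rintro v w ⟨a, rfl⟩
            refine ⟨-a, ?_⟩
            rw [← Perm.mul_apply, ← zpow_add]
            have : (M : ℤ) * -a + (M : ℤ) * a = 0 := by ring
            rw [this]; simp
          trans := by
            rintro u v w ⟨a, rfl⟩ ⟨b, rfl⟩
            refine ⟨b + a, ?_⟩
            rw [← Perm.mul_apply, ← zpow_add, mul_add] } }
  let X := Quotient s
  let q : V → X := Quotient.mk s
  have hq : ∀ v w, q v = q w ↔ ∃ a : ℤ, w = (π ^ ((M : ℤ) * a)) v := fun v w =>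
    ⟨fun h => Quotient.exact h, fun h => Quotient.sound h⟩
  have hshift : ∀ (t : ℤ) (v w : V), q v = q w → q ((π ^ t) v) = q ((π ^ t) w) := by
    intro t v w h
    obtain ⟨a, rfl⟩ := (hq v w).1 h
    refine (hq _ _).2 ⟨a, ?_⟩
    rw [← Perm.mul_apply, ← Perm.mul_apply, ← zpow_add, ← zpow_add, add_comm]
  let τf : ℤ → X → X := fun t => Quotient.lift (fun v => q ((π ^ t) v)) (fun v w h =>
    hshift t v w (Quotient.sound h))
  have hτf : ∀ t v, τf t (q v) = q ((π ^ t) v) := fun t v => rfl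
  let τ : Perm X :=
    { toFun := τf 1
      invFun := τf (-1)
      left_inv := by
        intro x
        induction x using Quotient.inductionOn with
        | h v =>
          show τf (-1) (τf 1 (q v)) = q v
          rw [hτf, hτf, ← Perm.mul_apply, ← zpow_add]; simp
      right_inv := by
        intro x
        induction x using Quotient.inductionOn with
        | h v =>
          show τf 1 (τf (-1) (q v)) = q v
          rw [hτf, hτf, ← Perm.mul_apply, ← zpow_add]; simp }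
  have hτ : ∀ v, τ (q v) = q (π v) := by
    intro v
    show τf 1 (q v) = _
    rw [hτf]; simp
  have hτz : ∀ (t : ℤ) (v : V), (τ ^ t) (q v) = q ((π ^ t) v) := by
    intro t
    induction t with
    | zero => intro v; simp
    | succ n ih =>
      intro v
      rw [zpow_add_one, Perm.mul_apply, hτ, ih, zpow_add_one, Perm.mul_apply]
    | pred n ih =>
      intro v
      have h1 : τ⁻¹ (q v) = q (π⁻¹ v) := by
        rw [Perm.inv_eq_iff_eq, hτ]
        show q v = q (π (π.symm v))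
        rw [Equiv.apply_symm_apply]
      rw [zpow_sub_one, Perm.mul_apply, h1, ih, zpow_sub_one, Perm.mul_apply]
  have hinj : ∀ v ∈ T, ∀ w ∈ T, q v = q w → v = w := by
    intro v hv w hw h
    obtain ⟨a, ha⟩ := (hq v w).1 h
    obtain ⟨t, h1, h2⟩ := hmod w hw v hv v hv v hv a 0 0 (by rw [add_zero]; exact ha) (by simp)
    rw [h1]
    exact h2
  let r : X → V := fun x => if h : ∃ v ∈ T, q v = x then h.choose else x.out
  have hr : ∀ x, q (r x) = x := by
    intro x
    by_cases h : ∃ v ∈ T, q v = x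
    · have : r x = h.choose := dif_pos h
      rw [this]
      exact h.choose_spec.2
    · have : r x = x.out := dif_neg h
      rw [this]
      exact Quotient.out_eq x
  have hrT : ∀ v ∈ T, r (q v) = v := by
    intro v hv
    have h : ∃ w ∈ T, q w = q v := ⟨v, hv, rfl⟩
    have h1 : r (q v) = h.choose := dif_pos h
    rw [h1]
    exact hinj _ h.choose_spec.1 _ hv h.choose_spec.2
  have hk : ∀ x, ∃ k : ℤ, (π ^ k) (r x) = r (τ x) ∧ (π (r x) = r (τ x) → k = 1) := by
    intro x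
    by_cases h : π (r x) = r (τ x)
    · exact ⟨1, by rw [zpow_one]; exact h, fun _ => rfl⟩
    · have h1 : q (π (r x)) = q (r (τ x)) := by rw [hr, ← hτ, hr]
      obtain ⟨a, ha⟩ := (hq _ _).1 h1
      refine ⟨(M : ℤ) * a + 1, ?_, fun h' => absurd h' h⟩
      rw [zpow_add_one, Perm.mul_apply]
      exact ha.symm
  choose k hk1 hk2 using hk
  let Λ' : SimpleGraph X :=
    { Adj := fun x y => ∃ (j : ℤ) (v w : V), v ∈ T ∧ w ∈ T ∧ Λ.Adj v w ∧
        x = (τ ^ j) (q v) ∧ y = (τ ^ j) (q w)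
      symm := ⟨by
        rintro x y ⟨j, v, w, hv, hw, h, hx, hy⟩
        exact ⟨j, w, v, hw, hv, h.symm, hy, hx⟩⟩
      loopless := ⟨by
        rintro x ⟨j, v, w, hv, hw, h, hx, hy⟩
        have h1 : q v = q w := (τ ^ j).injective (hx.symm.trans hy)
        rw [hinj v hv w hw h1] at h
        exact h.ne rfl⟩ }
  refine ⟨X, q, τ, r, k, Λ', M, hM, ?_, hr, hrT, fun v => (hτ v).symm, hk1, ?_, ?_, ?_⟩
  · ext x
    obtain ⟨v, rfl⟩ : ∃ v, q v = x := ⟨r x, hr x⟩
    have h1 := hτz M v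
    rw [zpow_natCast] at h1
    rw [h1, Perm.one_apply]
    symm
    exact (hq _ _).2 ⟨1, by rw [mul_one]⟩
  · intro v hv hpv
    refine hk2 (q v) ?_
    rw [hrT v hv, hτ, hrT _ hpv]
  · intro x y
    constructor
    · rintro ⟨j, v, w, hv, hw, h, hx, hy⟩
      refine ⟨j - 1, v, w, hv, hw, h, ?_, ?_⟩
      · apply τ.injective
        rw [hx, ← Perm.mul_apply, ← zpow_one_add]
        congr 2; ring
      · apply τ.injective
        rw [hy, ← Perm.mul_apply, ← zpow_one_add]
        congr 2; ring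
    · rintro ⟨j, v, w, hv, hw, h, hx, hy⟩
      refine ⟨1 + j, v, w, hv, hw, h, ?_, ?_⟩
      · rw [zpow_one_add, Perm.mul_apply, hx]
      · rw [zpow_one_add, Perm.mul_apply, hy]
  · intro v hv w hw
    constructor
    · rintro ⟨j, v', w', hv', hw', h, hx, hy⟩
      rw [hτz] at hx hy
      obtain ⟨a, ha⟩ := (hq _ _).1 hx.symm
      obtain ⟨b, hb⟩ := (hq _ _).1 hy.symm
      rw [← Perm.mul_apply, ← zpow_add] at ha hb
      obtain ⟨t, h1, h2⟩ := hmod v hv v' hv' w hw w' hw' a b j ha hb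
      rw [h1, h2]
      exact hz t _ _ h
    · intro h
      exact ⟨0, v, w, hv, hw, h, by simp, by simp⟩

end Pool.Agent.L7h79.FJ
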